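import Pool.Agent.Helper50.BP.St

/-! # Project BP, module F5 (the field with five elements) -/

set_option autoImplicit false

namespace Pool.Agent.Helper26.BP

open Pool.Agent.Helper50.BP Pool.Agent.Helper43.GD Pool.Agent.Helper73.BG

/-- every element of `L` is one of `0, 1, 2, 3, 4` -/
lemma five_el {L : Type} [CommRing L] (h5 : (5 : L) = 0) (hG : Gn (2 : L)) (y : L) :
    y = 0 ∨ y = 1 ∨ y = 2 ∨ y = 3 ∨ y = 4 := by
  let N : AddSubgroup L :=
    { carrier := {y | y = 0 ∨ y = 1 ∨ y = 2 ∨ y = 3 ∨ y = 4}
      zero_mem' := Or.inl rfl
      add_mem' := by
        intro a b ha hb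
        rcases ha with rfl | rfl | rfl | rfl | rfl <;>
          rcases hb with rfl | rfl | rfl | rfl | rfl <;>
          first
          | (left; linear_combination (0 : L) * h5)
          | (right; left; linear_combination (0 : L) * h5)
          | (right; right; left; linear_combination (0 : L) * h5)
          | (right; right; right; left; linear_combination (0 : L) * h5)
          | (right; right; right; right; linear_combination (0 : L) * h5)
          | (left; linear_combination h5)
          | (right; left; linear_combination h5)
          | (right; right; left; linear_combination h5)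
          | (right; right; right; left; linear_combination h5)
      neg_mem' := by
        intro a ha
        rcases ha with rfl | rfl | rfl | rfl | rfl
        · left; simp
        · right; right; right; right; linear_combination -h5
        · right; right; right; left; linear_combination -h5
        · right; right; left; linear_combination -h5
        · right; left; linear_combination -h5 }
  have hy : y ∈ N := by
    apply hG N
    · exact Or.inr (Or.inl rfl)
    · intro a ha
      have ha' : a = 0 ∨ a = 1 ∨ a = 2 ∨ a = 3 ∨ a = 4 := ha
      change 2 * a = 0 ∨ 2 * a = 1 ∨ 2 * a = 2 ∨ 2 * a = 3 ∨ 2 * a = 4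
      rcases ha' with rfl | rfl | rfl | rfl | rfl <;>
        first
          | (left; linear_combination (0 : L) * h5)
          | (right; left; linear_combination (0 : L) * h5)
          | (right; right; left; linear_combination (0 : L) * h5)
          | (right; right; right; left; linear_combination (0 : L) * h5)
          | (right; right; right; right; linear_combination (0 : L) * h5)
          | (left; linear_combination h5)
          | (right; left; linear_combination h5)
          | (right; right; left; linear_combination h5)
          | (right; right; right; left; linear_combination h5)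
  exact hy

theorem hF5 (hHAT : Pool.Agent.Helper43.GD.StHAT) (hCEL : Pool.Agent.Helper43.GD.StCEL)
    (hPFA : Pool.Agent.Helper50.AY.StPFA) (hAUA : Pool.Agent.Helper50.AY.StAUA) : StF5 := by
  intro L _ x hfinL hG hxh hxk A _ s' h1 hx
  have hx2 : (x : L) = 2 := by linear_combination hxk - hxh
  have h5 : (5 : L) = 0 := by
    have h4 : (2 : L) ^ 2 = -1 := by rw [← hx2]; exact hxh
    linear_combination h4
  rw [hx2] at hG
  have hall5 := five_el h5 hG
  rcases subsingleton_or_nontrivial L with hL | hL
  · have hE : ∀ a, s'.E a = 1 := fun a => by rw [Subsingleton.elim a 0, s'.E_zero]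
    have hF : ∀ a, s'.F a = 1 := fun a => by rw [Subsingleton.elim a 0, s'.F_zero]
    have hbot : s'.gp = ⊥ := by
      rw [Sys.gp, Subgroup.closure_eq_bot_iff]
      rintro y (⟨a, rfl⟩ | ⟨a, rfl⟩)
      · simp [hE]
      · simp [hF]
    rw [hbot]
    infer_instance
  · have u2 : IsUnit (2 : L) :=
      IsUnit.of_mul_eq_one 3 (by linear_combination h5)
    have u3 : IsUnit (3 : L) :=
      IsUnit.of_mul_eq_one 2 (by linear_combination h5)
    have u4 : IsUnit (4 : L) :=
      IsUnit.of_mul_eq_one 4 (by linear_combination 3 * h5)
    have hloc : IsLocalRing L := by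
      apply IsLocalRing.of_isUnit_or_isUnit_one_sub_self
      intro a
      rcases hall5 a with rfl | rfl | rfl | rfl | rfl
      · right; simp
      · left; exact isUnit_one
      · left; exact u2
      · left; exact u3
      · left; exact u4
    have hRf : Pool.Agent.Helper50.AY.Rf L x := by
      refine ⟨hfinL, ?_⟩
      have : (x : L) ^ 2 - 1 = 3 := by rw [hx2]; norm_num
      rw [this]
      exact u3
    obtain ⟨H, _, s, hs⟩ := hHAT L x
    have hP := hPFA L H x s hRf hs.1 hs.2.1 hs.2.2.1
    obtain ⟨Q, hxU, hQE, hQF⟩ := hAUA L H x s hRf hs
    have hall : ∀ u : Lˣ, u ∈ Q.U := by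
      intro u
      rcases hall5 (u : L) with h | h | h | h | h
      · exact absurd h u.ne_zero
      · have : u = 1 := Units.ext (by rw [h]; rfl)
        rw [this]
        exact Q.U.one_mem
      · have : u = x := Units.ext (by rw [h, hx2])
        rw [this]
        exact hxU
      · have : u = x ^ 3 := Units.ext (by
          rw [Units.val_pow_eq_pow_val, h, hx2]
          linear_combination -h5)
        rw [this]
        exact Q.U.pow_mem hxU 3
      · have : u = x ^ 2 := Units.ext (by
          rw [Units.val_pow_eq_pow_val, h, hx2]
          norm_num)
        rw [this]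
        exact Q.U.pow_mem hxU 2
    have hfin : Finite Q.gp := hCEL L _ Q hfinL hloc u2 hall
    have hmem : ∀ g : H, MulAut.conj g ∈ Q.gp := by
      have hle : s.gp ≤ Q.gp.comap MulAut.conj := by
        rw [Sys.gp, Subgroup.closure_le]
        rintro y (⟨a, rfl⟩ | ⟨a, rfl⟩)
        · change MulAut.conj (s.E a) ∈ Q.gp
          rw [← hQE]
          exact Q.E_mem a
        · change MulAut.conj (s.F a) ∈ Q.gp
          rw [← hQF]
          exact Q.F_mem a
      intro g
      have : g ∈ s.gp := by rw [hs.2.2.1]; trivial
      exact hle this
    have hfc : Finite (H ⧸ Subgroup.center H) := by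
      apply Finite.of_injective
        (fun q : H ⧸ Subgroup.center H => (⟨MulAut.conj q.out, hmem _⟩ : Q.gp))
      intro p q hpq
      have h2 : MulAut.conj p.out = MulAut.conj q.out := congrArg Subtype.val hpq
      have h3 : ((p.out : H) : H ⧸ Subgroup.center H) = ((q.out : H) : H ⧸ Subgroup.center H) := by
        rw [QuotientGroup.eq, Subgroup.mem_center_iff]
        intro g
        have h4 : p.out * g * (p.out)⁻¹ = q.out * g * (q.out)⁻¹ := by
          have := congrArg (fun f : MulAut H => f g) h2
          simpa [MulAut.conj_apply] using this
        have h5 : g * (p.out⁻¹ * q.out) = p.out⁻¹ * (p.out * g * (p.out)⁻¹) * q.out := by group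
        rw [h5, h4]
        group
      simpa using h3
    have hH : Finite H := Pool.Agent.Helper60.DZ2.Red_schur hP
    obtain ⟨φ, hφE, hφF⟩ := hs.2.2.2 A s' h1 hx
    have hle : s'.gp ≤ φ.range := by
      rw [Sys.gp, Subgroup.closure_le]
      rintro y (⟨a, rfl⟩ | ⟨a, rfl⟩)
      · exact ⟨s.E a, hφE a⟩
      · exact ⟨s.F a, hφF a⟩
    have hr : (φ.range : Set A).Finite := by
      rw [MonoidHom.coe_range]
      exact Set.finite_range φ
    exact (hr.subset hle).to_subtype

end Pool.Agent.Helper26.BP
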